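import Pool.Agent.Helper70_SZD.Main

/-!
# ZF proves that all Cantor cubes are strongly zero-dimensional

We prove that the sentence saying that for every set `J` the Cantor cube `2 ^ J` is strongly
zero-dimensional holds in every model `(M, E)` of Zermelo–Fraenkel set theory without the axiom of choice.  By the
completeness theorem of first-order logic this means that ZF proves it, for all sets `J`, in
particular for the uncountable ones.

Idea of the proof, carried out inside of the model.  Let `f : 2 ^ J → [0, 1]` be continuous.  For a
natural number `m` let `D m` be the set of the coordinates `j` for which there are two points `x`,
`y` that differ only in `j`, and a set `G ∋ j` with at most `m` elements, such that for some real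
number `a` one has `f < a` on the cylinder of `x` over `G` and `f > a + 1 / m` on the cylinder of
`y` over `G`.  A combinatorial lemma without choice (`finite_lemma`) shows that `D m` is finite.  The
sets `D m` increase with `m`, and `f` does not change if a point is changed in finitely many
coordinates that are in no `D m`.  Hence for every `x` there is an `m` such that `f` varies by less
than `1` on the cylinder of `x` over `D m`.  The clopen set is the union of all such cylinders that
meet the given set `A`.
-/

namespace Pool.Agent.Results.MP_fa4505_lc.CantorCubesZF

open Pool.Agent.SZD

universe u

/-- In every model `(M, E)` of ZF and for every set `J` of the model: the set `X = 2 ^ J` and its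
product topology `T` exist, and the space `(X, T)` is strongly zero-dimensional. -/
theorem result {M : Type u} {E : M → M → Prop} (hE : IsZF E) (J : M) :
    (∃ X T, IsCube E X J ∧ IsProductTopology E T X J) ∧
      ∀ X T, IsCube E X J → IsProductTopology E T X J → StronglyZeroDimensional E T X := by
  refine ⟨?_, fun X T hX hT => cube_stronglyZeroDimensional hE hX hT⟩
  obtain ⟨X, hX⟩ := exists_cube hE J
  obtain ⟨T, hT⟩ := exists_productTopology hE X J
  exact ⟨X, T, hX, hT⟩

end Pool.Agent.Results.MP_fa4505_lc.CantorCubesZF
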